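import Pool.Agent.W165.RS.Form
import Pool.Agent.W165.RS.Strip
import Pool.Agent.TH941.LogD

/-! Rankin-Selberg for a normalised Hecke eigenform of weight two: the limit of the Dirichlet
series of the squares of the coefficients. -/

set_option autoImplicit false

namespace Pool.Agent.TH941

open MeasureTheory Filter Topology UpperHalfPlane CongruenceSubgroup
open scoped ENNReal MatrixGroups
open Pool.Agent.W165.RS (FF FF_meas FF_inv FF_dec rs_limit strip_eq ac ac_zero SS)

variable {N : ℕ} [NeZero N] (f : CuspForm (Gamma0 N : Subgroup (GL (Fin 2) ℝ)) 2)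

/-- `|c(n)|² / n` -/
noncomputable def gg (n : ℕ) : ℝ := ‖ac f n‖ ^ 2 / n

omit [NeZero N] in
theorem gg_nonneg (n : ℕ) : 0 ≤ gg f n := by unfold gg; positivity

/-- the term of the strip integral -/
theorem term_eq {s : ℝ} (n : ℕ) :
    ‖ac f n‖ ^ 2 * ((1 / (4 * Real.pi * n)) ^ (s + ((2 : ℤ) : ℝ) - 1) *
      Real.Gamma (s + ((2 : ℤ) : ℝ) - 1)) =
    ((4 * Real.pi) ^ (-(s + 1)) * Real.Gamma (s + 1)) * (gg f n * (n : ℝ) ^ (-s)) := by
  have e : s + ((2 : ℤ) : ℝ) - 1 = s + 1 := by push_cast; ring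
  rw [e]
  rcases Nat.eq_zero_or_pos n with rfl | hn
  · unfold gg
    rw [ac_zero]
    simp
  · have hn' : (0 : ℝ) < n := by exact_mod_cast hn
    have hpi := Real.pi_pos
    have h1 : (1 / (4 * Real.pi * n)) ^ (s + 1) =
        (4 * Real.pi) ^ (-(s + 1)) * ((n : ℝ) ^ (-s) / n) := by
      rw [one_div, Real.inv_rpow (by positivity), ← Real.rpow_neg (by positivity),
        Real.mul_rpow (by positivity) (by positivity)]
      congr 1
      rw [show -(s + 1) = -s - 1 by ring, Real.rpow_sub_one hn'.ne']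
    rw [h1]
    unfold gg
    ring

theorem strip2 {s : ℝ} (hs : 0 < s + 1) :
    ∫⁻ z in SS, FF f z * ENNReal.ofReal (z.im ^ s) =
      ∑' n : ℕ, ENNReal.ofReal (((4 * Real.pi) ^ (-(s + 1)) * Real.Gamma (s + 1)) *
        (gg f n * (n : ℝ) ^ (-s))) := by
  rw [strip_eq f (by push_cast; linarith)]
  exact tsum_congr fun n => by rw [term_eq f n]

theorem cc_pos {s : ℝ} (hs : 0 < s + 1) : 0 < (4 * Real.pi) ^ (-(s + 1)) * Real.Gamma (s + 1) := by
  have := Real.Gamma_pos_of_pos hs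
  have := Real.pi_pos
  positivity

theorem strip3 {s : ℝ} (hs : 0 < s + 1) :
    ∫⁻ z in SS, FF f z * ENNReal.ofReal (z.im ^ s) =
      ENNReal.ofReal ((4 * Real.pi) ^ (-(s + 1)) * Real.Gamma (s + 1)) *
        ∑' n : ℕ, ENNReal.ofReal (gg f n * (n : ℝ) ^ (-s)) := by
  rw [strip2 f hs, ← ENNReal.tsum_mul_left]
  exact tsum_congr fun n => ENNReal.ofReal_mul (cc_pos hs).le

theorem lint_ne_zero (h1 : ac f 1 = 1) : ∫⁻ z, FF f z ≠ 0 := by
  intro h0
  rw [lintegral_eq_zero_iff (FF_meas f)] at h0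
  have h2 : ∫⁻ z in SS, FF f z * ENNReal.ofReal (z.im ^ (2 : ℝ)) = 0 := by
    refine le_antisymm ?_ zero_le
    refine (setLIntegral_le_lintegral _ _).trans (le_of_eq ?_)
    have hme : Measurable fun z : ℍ => FF f z * ENNReal.ofReal (z.im ^ (2 : ℝ)) :=
      (FF_meas f).mul (ENNReal.measurable_ofReal.comp (continuous_im.measurable.pow_const _))
    rw [lintegral_eq_zero_iff hme]
    filter_upwards [h0] with z hz
    simp only [Pi.zero_apply] at hz ⊢
    rw [hz, zero_mul]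
  rw [strip3 f (by norm_num)] at h2
  rcases mul_eq_zero.1 h2 with h3 | h3
  · rw [ENNReal.ofReal_eq_zero] at h3
    have := cc_pos (s := 2) (by norm_num)
    linarith
  · rw [ENNReal.tsum_eq_zero] at h3
    have h4 := h3 1
    rw [ENNReal.ofReal_eq_zero] at h4
    unfold gg at h4
    rw [h1] at h4
    norm_num at h4

/-- **Rankin-Selberg.** -/
theorem rs_form (h1 : ac f 1 = 1) :
    (∀ s : ℝ, 1 < s → Summable fun n : ℕ => gg f n * (n : ℝ) ^ (-s)) ∧
    ∃ c : ℝ, 0 < c ∧ Tendsto (fun s : ℝ => (s - 1) * ∑' n : ℕ, gg f n * (n : ℝ) ^ (-s)) (𝓝[>] 1)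
      (𝓝 c) := by
  obtain ⟨c, hc0, hctop, hc⟩ := rs_limit (FF_meas f) (FF_inv f) (FF_dec f) (lint_ne_zero f h1)
  have hterm : ∀ (s : ℝ) (n : ℕ), 0 ≤ gg f n * (n : ℝ) ^ (-s) := fun s n =>
    mul_nonneg (gg_nonneg f n) (by positivity)
  -- finiteness near `1`
  have hfin : ∀ᶠ s : ℝ in 𝓝[>] 1, ENNReal.ofReal (s - 1) *
      ∫⁻ z in SS, FF f z * ENNReal.ofReal (z.im ^ s) < ⊤ :=
    hc.eventually (gt_mem_nhds hctop.lt_top)
  have hsum : ∀ s : ℝ, 1 < s → Summable fun n : ℕ => gg f n * (n : ℝ) ^ (-s) := by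
    intro s hs
    obtain ⟨t, ht1, ht2, ht3⟩ := (hfin.and ((eventually_mem_nhdsWithin (a := (1 : ℝ)) (s := Set.Ioi 1)).and
      (Filter.Eventually.filter_mono nhdsWithin_le_nhds (gt_mem_nhds hs)))).exists
    have ht2' : (1 : ℝ) < t := ht2
    have h2 : ∑' n : ℕ, ENNReal.ofReal (gg f n * (n : ℝ) ^ (-t)) ≠ ⊤ := by
      intro htop
      rw [strip3 f (by linarith), htop] at ht1
      rw [ENNReal.mul_top, ENNReal.mul_top] at ht1
      · exact lt_irrefl _ ht1
      · rw [Ne, ENNReal.ofReal_eq_zero, not_le]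
        linarith
      · rw [Ne, ENNReal.ofReal_eq_zero, not_le]
        exact cc_pos (by linarith)
    have h3 : Summable fun n : ℕ => gg f n * (n : ℝ) ^ (-t) :=
      (ENNReal.summable_toReal h2).congr fun n => ENNReal.toReal_ofReal (hterm t n)
    refine Summable.of_nonneg_of_le (hterm s) (fun n => ?_) h3
    rcases Nat.eq_zero_or_pos n with rfl | hn
    · unfold gg; simp
    · refine mul_le_mul_of_nonneg_left ?_ (gg_nonneg f n)
      exact Real.rpow_le_rpow_of_exponent_le (by exact_mod_cast hn) (by linarith)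
  refine ⟨hsum, ?_⟩
  -- the real limit
  have hcr : Tendsto (fun s : ℝ => (ENNReal.ofReal (s - 1) *
      ∫⁻ z in SS, FF f z * ENNReal.ofReal (z.im ^ s)).toReal) (𝓝[>] 1) (𝓝 c.toReal) :=
    (ENNReal.tendsto_toReal hctop).comp hc
  have hfac : Tendsto (fun s : ℝ => ((4 * Real.pi) ^ (-(s + 1)) * Real.Gamma (s + 1))) (𝓝[>] 1)
      (𝓝 ((4 * Real.pi) ^ (-((1 : ℝ) + 1)) * Real.Gamma (1 + 1))) := by
    have hpi := Real.pi_pos
    have c1 : ContinuousAt (fun s : ℝ => (4 * Real.pi) ^ (-(s + 1))) 1 := by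
      refine ContinuousAt.rpow continuousAt_const (by fun_prop) (Or.inl (by positivity))
    have c2 : ContinuousAt (fun s : ℝ => Real.Gamma (s + 1)) 1 := by
      have : ContinuousAt Real.Gamma (1 + 1) := by
        refine (Real.differentiableAt_Gamma fun m => ?_).continuousAt
        have : (0 : ℝ) ≤ m := Nat.cast_nonneg m
        intro h
        linarith
      exact ContinuousAt.comp (f := fun s : ℝ => s + 1) this (by fun_prop)
    exact ((c1.mul c2).tendsto).mono_left nhdsWithin_le_nhds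
  have hpos := cc_pos (s := 1) (by norm_num)
  refine ⟨c.toReal / ((4 * Real.pi) ^ (-((1 : ℝ) + 1)) * Real.Gamma (1 + 1)),
    div_pos (ENNReal.toReal_pos hc0 hctop) hpos, ?_⟩
  refine (hcr.div hfac hpos.ne').congr' ?_
  filter_upwards [self_mem_nhdsWithin] with s hs
  have hs1 : (1 : ℝ) < s := hs
  have hp := cc_pos (s := s) (by linarith)
  simp only [Pi.div_apply]
  rw [strip3 f (by linarith), ENNReal.toReal_mul, ENNReal.toReal_mul,
    ENNReal.toReal_ofReal (by linarith), ENNReal.toReal_ofReal hp.le,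
    ← ENNReal.ofReal_tsum_of_nonneg (hterm s) (hsum s hs1),
    ENNReal.toReal_ofReal (tsum_nonneg (hterm s))]
  field_simp

end Pool.Agent.TH941
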