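import Pool.Agent.W263.BSD.Lead8
import Pool.Agent.TH941.RS

/-! From the limit of `∑ c(p) p^{-w}`, `w → 0+`, to `∑_{√x < p ≤ x} c(p) → 0`. -/

set_option autoImplicit false

namespace Pool.Agent.TH941

open MeasureTheory Filter Topology Set
open Pool.Agent.W263.BSD (stp stp_meas stp_LInt stp_hasSum stp_abs LInt_half lap_half lap_sub lap LInt
  prime_inc tauber_limit)

section

variable {c : ℕ → ℝ} {B : ℝ}

/-- `|c(n)| ≤ B/n`, supported on the primes -/
structure PS (c : ℕ → ℝ) (B : ℝ) : Prop where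
  pos : 0 < B
  le : ∀ n, |c n| ≤ B / n
  np : ∀ n, ¬ n.Prime → c n = 0

theorem PS.zero (h : PS c B) : c 0 = 0 := h.np 0 Nat.not_prime_zero

theorem PS.summable (h : PS c B) {w : ℝ} (hw : 0 < w) :
    Summable fun n : ℕ => |c n| * (n : ℝ) ^ (-w) := by
  refine Summable.of_nonneg_of_le (fun n => by positivity) (fun n => ?_)
    ((Real.summable_nat_rpow.mpr (show -1 - w < -1 by linarith)).mul_left B)
  rcases Nat.eq_zero_or_pos n with rfl | hn
  · rw [h.zero]
    have := h.pos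
    simp only [abs_zero, zero_mul]
    positivity
  · have hn' : (0 : ℝ) < n := by exact_mod_cast hn
    rw [show (-1 - w : ℝ) = -1 + -w by ring, Real.rpow_add hn', Real.rpow_neg_one, ← mul_assoc,
      ← div_eq_mul_inv]
    exact mul_le_mul_of_nonneg_right (h.le n) (by positivity)

theorem PS.inc (hc : PS c B) {u v : ℝ} (h : u ≤ v) :
    |stp c v - stp c u| ≤
      B * ∑ p ∈ (Finset.Ioc ⌊Real.exp u⌋₊ ⌊Real.exp v⌋₊).filter Nat.Prime, (1 : ℝ) / p := by
  have hab : ⌊Real.exp u⌋₊ ≤ ⌊Real.exp v⌋₊ := Nat.floor_le_floor (Real.exp_le_exp.mpr h)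
  have h1 : stp c v - stp c u = ∑ p ∈ Finset.Ioc ⌊Real.exp u⌋₊ ⌊Real.exp v⌋₊, c p := by
    unfold Pool.Agent.W263.BSD.stp
    rw [Finset.range_eq_Ico, Finset.range_eq_Ico,
      ← Finset.sum_Ico_consecutive _ (Nat.zero_le _) (Nat.succ_le_succ hab), add_sub_cancel_left]
    refine Finset.sum_congr ?_ fun _ _ => rfl
    ext p
    rw [Finset.mem_Ico, Finset.mem_Ioc]
    omega
  rw [h1, Finset.sum_filter, Finset.mul_sum]
  refine (Finset.abs_sum_le_sum_abs _ _).trans (Finset.sum_le_sum fun p _ => ?_)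
  split_ifs with hp
  · refine (hc.le p).trans (le_of_eq (by ring))
  · rw [hc.np p hp, abs_zero, mul_zero]

theorem PS.slow1 (hc : PS c B) {ε : ℝ} (hε : 0 < ε) : ∃ u0 : ℝ, 2 ≤ u0 ∧ ∀ u v : ℝ,
    u0 ≤ u → u ≤ v → |stp c v - stp c u| ≤ B * Real.log (v / u) + ε := by
  obtain ⟨u0, h2, h⟩ := prime_inc (div_pos hε hc.pos)
  refine ⟨u0, h2, fun u v h1 h3 => (hc.inc h3).trans ?_⟩
  refine (mul_le_mul_of_nonneg_left (h u v h1 h3) hc.pos.le).trans (le_of_eq ?_)
  have := hc.pos.ne'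
  field_simp

/-- `s(u) - s(u/2)` -/
noncomputable def hf (c : ℕ → ℝ) (u : ℝ) : ℝ := stp c u - stp c (u / 2)

theorem hf_meas : Measurable (hf c) :=
  (stp_meas _).sub ((stp_meas _).comp (measurable_id.div_const 2))

theorem PS.hf_LInt (hc : PS c B) {w : ℝ} (hw : 0 < w) : LInt (hf c) w :=
  (stp_LInt hc.zero (fun _ h => hc.summable h) hw).sub
    (LInt_half (stp_LInt hc.zero (fun _ h => hc.summable h) (by linarith)))

theorem PS.hf_bounded (hc : PS c B) : ∃ M : ℝ, ∀ u, 0 < u → |hf c u| ≤ M := by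
  obtain ⟨u0, h2, h⟩ := hc.slow1 one_pos
  set K : ℝ := ∑' n : ℕ, |c n| * (n : ℝ) ^ (-(1 : ℝ)) with hK
  have hK0 : 0 ≤ K := tsum_nonneg fun n => by positivity
  have hb : ∀ u : ℝ, |stp c u| ≤ K * Real.exp (1 * u) := fun u =>
    stp_abs hc.zero (hc.summable one_pos) zero_le_one u
  refine ⟨(B * Real.log 2 + 1) + 2 * (K * Real.exp (2 * u0)), fun u hu => ?_⟩
  have hlog : 0 ≤ B * Real.log 2 := mul_nonneg hc.pos.le (Real.log_nonneg (by norm_num))
  have hE := Real.exp_pos (2 * u0)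
  have hKE : 0 ≤ K * Real.exp (2 * u0) := by positivity
  rcases le_or_gt (2 * u0) u with h3 | h3
  · have h4 := h (u / 2) u (by linarith) (by linarith)
    have h5 : u / (u / 2) = 2 := by field_simp
    rw [h5] at h4
    unfold hf
    linarith
  · have h4 := hb u
    have h5 := hb (u / 2)
    have h6 : Real.exp (1 * u) ≤ Real.exp (2 * u0) := Real.exp_le_exp.mpr (by linarith)
    have h7 : Real.exp (1 * (u / 2)) ≤ Real.exp (2 * u0) := Real.exp_le_exp.mpr (by linarith)
    have h8 := mul_le_mul_of_nonneg_left h6 hK0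
    have h9 := mul_le_mul_of_nonneg_left h7 hK0
    unfold hf
    refine (abs_sub _ _).trans ?_
    linarith

theorem PS.hf_slow (hc : PS c B) {ε : ℝ} (hε : 0 < ε) : ∃ δ > 0, ∃ u0 : ℝ, ∀ u v : ℝ,
    u0 ≤ u → u ≤ v → v ≤ (1 + δ) * u → hf c v ≤ hf c u + ε := by
  obtain ⟨u0, h2, h⟩ := hc.slow1 (show 0 < ε / 4 by positivity)
  have hB := hc.pos
  refine ⟨ε / (4 * B), by positivity, 2 * u0, fun u v h3 h4 h5 => ?_⟩
  have hu : 0 < u := by linarith
  have h6 := h u v (by linarith) h4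
  have h7 := h (u / 2) (v / 2) (by linarith) (by linarith)
  have h8 : v / 2 / (u / 2) = v / u := by field_simp
  rw [h8] at h7
  have h9 : B * Real.log (v / u) ≤ ε / 4 := by
    have e1 : v / u ≤ 1 + ε / (4 * B) := by rw [div_le_iff₀ hu]; exact h5
    have e2 : 0 < v / u := div_pos (by linarith) hu
    have e3 := Real.log_le_sub_one_of_pos e2
    have e4 : Real.log (v / u) ≤ ε / (4 * B) := by linarith
    refine (mul_le_mul_of_nonneg_left e4 hB.le).trans (le_of_eq ?_)
    field_simp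
  have h10 : hf c v - hf c u = (stp c v - stp c u) - (stp c (v / 2) - stp c (u / 2)) := by
    unfold hf; ring
  have h11 := abs_le.mp h6
  have h12 := abs_le.mp h7
  linarith

/-- **The increments over `(√x, x]` tend to zero.** -/
theorem PS.half_tendsto (hc : PS c B) {C0 : ℝ}
    (h : Tendsto (fun w : ℝ => ∑' n : ℕ, c n * (n : ℝ) ^ (-w)) (𝓝[>] 0) (𝓝 C0)) :
    Tendsto (hf c) atTop (𝓝 0) := by
  obtain ⟨M, hM⟩ := hc.hf_bounded
  refine tauber_limit hf_meas (fun w hw => hc.hf_LInt hw) hM ?_ fun ε hε => hc.hf_slow hε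
  have h2 : Tendsto (fun w : ℝ => 2 * w) (𝓝[>] 0) (𝓝[>] 0) := by
    rw [tendsto_nhdsWithin_iff]
    constructor
    · have : Continuous fun w : ℝ => 2 * w := by fun_prop
      have := this.tendsto 0
      rw [mul_zero] at this
      exact this.mono_left nhdsWithin_le_nhds
    · filter_upwards [self_mem_nhdsWithin] with w hw
      have hw0 : (0 : ℝ) < w := hw
      show (0 : ℝ) < 2 * w
      linarith
  have h3 := h.sub (h.comp h2)
  rw [sub_self] at h3
  refine h3.congr' ?_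
  filter_upwards [self_mem_nhdsWithin] with w hw
  have hw0 : (0 : ℝ) < w := hw
  have i1 : LInt (stp c) w := stp_LInt hc.zero (fun _ h => hc.summable h) hw0
  have i2 : LInt (stp c) (2 * w) := stp_LInt hc.zero (fun _ h => hc.summable h) (by linarith)
  have e1 := (stp_hasSum hc.zero (fun _ h => hc.summable h) hw0).tsum_eq
  have e2 := (stp_hasSum hc.zero (fun _ h => hc.summable h) (show 0 < 2 * w by linarith)).tsum_eq
  have e3 : lap (hf c) w = lap (stp c) w - lap (fun u => stp c (u / 2)) w :=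
    lap_sub i1 (LInt_half i2)
  simp only [Function.comp_apply]
  rw [e1, e2, e3, mul_sub, lap_half]

end

end Pool.Agent.TH941
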